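import Mathlib

namespace Pool.Agent.Results.MP_5f6a82_al.NoDescent

open FreeAlgebra

abbrev R := FreeAlgebra ℚ ℕ

noncomputable def σ : R →ₐ[ℚ] R := lift ℚ fun i => Nat.casesOn i 0 fun j => ι ℚ j

@[reducible] noncomputable def act : MulSemiringAction (Multiplicative ℕ) R :=
  MulSemiringAction.compHom R (powersHom (R →+* R) σ.toRingHom)

lemma kill (r : R) : ∃ m, ∀ k ≥ m, ∃ c : ℚ, σ^[k] r = algebraMap ℚ R c := by
  induction r using FreeAlgebra.induction with
  | grade0 c => exact ⟨0, fun k _ => ⟨c, Function.iterate_fixed (σ.commutes c) k⟩⟩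
  | grade1 i =>
    refine ⟨i + 1, fun k hk => ⟨0, ?_⟩⟩
    induction i generalizing k with
    | zero =>
      obtain ⟨k, rfl⟩ : ∃ t, k = t + 1 := ⟨k - 1, by omega⟩
      simp [σ, Function.iterate_fixed]
    | succ i ih =>
      obtain ⟨k, rfl⟩ : ∃ t, k = t + 1 := ⟨k - 1, by omega⟩
      rw [Function.iterate_succ_apply, ← ih k (by omega)]
      simp [σ]
  | mul a b ha hb =>
    obtain ⟨m, ha⟩ := ha
    obtain ⟨n, hb⟩ := hb
    refine ⟨m + n, fun k hk => ?_⟩
    obtain ⟨c, hc⟩ := ha k (by omega)
    obtain ⟨d, hd⟩ := hb k (by omega)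
    exact ⟨c * d, by rw [iterate_map_mul, hc, hd, map_mul]⟩
  | add a b ha hb =>
    obtain ⟨m, ha⟩ := ha
    obtain ⟨n, hb⟩ := hb
    refine ⟨m + n, fun k hk => ?_⟩
    obtain ⟨c, hc⟩ := ha k (by omega)
    obtain ⟨d, hd⟩ := hb k (by omega)
    exact ⟨c + d, by rw [iterate_map_add, hc, hd, map_add]⟩

lemma notSRC : ¬ StrongRankCondition R := by
  rw [strongRankCondition_iff_succ]
  intro h
  let D : ℕ → R →ₐ[ℚ] Matrix (Fin 2) (Fin 2) R := fun j =>
    lift ℚ fun i => !![ι ℚ i, if i = j then 1 else 0; 0, 0]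
  have hD : ∀ j a, D j a 0 0 = a ∧ D j a 1 0 = 0 := fun j a => by
    induction a using FreeAlgebra.induction with
    | grade0 c => simp [Matrix.algebraMap_matrix_apply]
    | grade1 i => simp [D]
    | mul a b ha hb => simp [Matrix.mul_apply, ha, hb]
    | add a b ha hb => simp [ha, hb]
  have hE : ∀ j i a, D j (a * ι ℚ i) 0 1 = if i = j then a else 0 := fun j i a => by
    rw [map_mul, Matrix.mul_apply]
    simp [hD, D]
  refine h 1 (LinearMap.pi fun _ => (LinearMap.proj 0).smulRight (ι ℚ 0) +
    (LinearMap.proj 1).smulRight (ι ℚ 1)) ((injective_iff_map_eq_zero _).mpr fun v hv => ?_)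
  have e : v 0 * ι ℚ 0 + v 1 * ι ℚ 1 = 0 := congrFun hv 0
  ext j
  have := congrArg (fun a => D j a 0 1) e
  simp only [map_add, Matrix.add_apply, hE] at this
  fin_cases j <;> simpa using this

open SkewPolynomial in
/-- The left strong rank condition does not descend from R[x;σ] to R for surjective σ. -/
theorem result : ∃ (R : Type) (_ : Ring R) (_ : MulSemiringAction (Multiplicative ℕ) R),
    Function.Surjective (SkewPolynomial.φ (R := R)) ∧
    StrongRankCondition (SkewPolynomial R) ∧ ¬ StrongRankCondition R := by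
  let := act
  have hφ : ∀ r : R, φ r = σ r := fun r => by
    show (σ.toRingHom ^ 1) r = _
    rw [pow_one]; rfl
  have hφ' : (φ : R → R) = σ := funext hφ
  refine ⟨R, inferInstance, act, fun r => ?_, ?_, notSRC⟩
  · simp only [hφ]
    induction r using FreeAlgebra.induction with
    | grade0 c => exact ⟨_, σ.commutes c⟩
    | grade1 i => exact ⟨ι ℚ (i + 1), by simp [σ]⟩
    | mul a b ha hb => exact σ.range.mul_mem ha hb
    | add a b ha hb => exact σ.range.add_mem ha hb
  let ψ : Polynomial ℚ →+* SkewPolynomial R :=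
    Polynomial.eval₂RingHom' (CRingHom.comp (algebraMap ℚ R)) X fun c => by
      show C _ * monomial 1 1 = monomial 1 1 * C _
      rw [C_mul_monomial, monomial_mul_C, hφ']
      simp
  have hm : ∀ n c, ψ (Polynomial.monomial n c) = monomial n (algebraMap ℚ R c) := fun n c => by
    rw [← C_mul_X_pow_eq_monomial]
    exact Polynomial.eval₂_monomial _ _
  have hc : ∀ p n, coeff (ψ p) n = algebraMap ℚ R (p.coeff n) := fun p n => by
    induction p using Polynomial.induction_on' with
    | add p q hp hq => simp [hp, hq]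
    | monomial k c => rw [hm, coeff_monomial, Polynomial.coeff_monomial]; split_ifs <;> simp
  have hk : ∀ a : SkewPolynomial R, ∃ m, ∀ k ≥ m, ∃ p, ψ p = X ^ k * a := fun a => by
    induction a using SkewMonoidAlgebra.induction_on with
    | zero => exact ⟨0, fun k _ => ⟨0, by simp⟩⟩
    | single n r =>
      obtain ⟨m, h⟩ := kill r
      refine ⟨m, fun k hk => ?_⟩
      obtain ⟨c, h⟩ := h k hk
      refine ⟨Polynomial.monomial (n.toAdd + k) c, ?_⟩
      rw [hm, ← h, ← hφ', ← X_pow_mul_monomial]
      rfl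
    | add a b ha hb =>
      obtain ⟨m, ha⟩ := ha
      obtain ⟨n, hb⟩ := hb
      refine ⟨m + n, fun k hk => ?_⟩
      obtain ⟨c, hc⟩ := ha k (by omega)
      obtain ⟨d, hd⟩ := hb k (by omega)
      exact ⟨c + d, by rw [map_add, hc, hd, mul_add]⟩
  rw [strongRankCondition_iff_succ]
  intro n f hf
  choose m hm' using fun p : Fin (n + 1) × Fin n => hk (f (Pi.single p.1 1) p.2)
  choose M hM using fun p => hm' p (Finset.univ.sup m) (Finset.le_sup (Finset.mem_univ p))
  set k := Finset.univ.sup m
  refine (strongRankCondition_iff_succ (Polynomial ℚ)).mp inferInstance n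
    (Matrix.vecMulLinear (Matrix.of fun i j => M (i, j)))
    ((injective_iff_map_eq_zero _).mpr fun v hv => ?_)
  have e : (fun i => ψ (v i) * X ^ k) = 0 := by
    refine (injective_iff_map_eq_zero _).mp hf _ (funext fun j => ?_)
    have := congrArg ψ (congrFun hv j)
    rw [LinearMap.pi_apply_eq_sum_univ]
    simp only [Matrix.vecMulLinear_apply, Matrix.vecMul, dotProduct, map_sum, map_mul,
      Matrix.of_apply, hM, Pi.zero_apply, map_zero] at this
    simp only [Finset.sum_apply, Pi.smul_apply, smul_eq_mul, mul_assoc, Pi.zero_apply]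
    refine Eq.trans (Finset.sum_congr rfl fun i _ => ?_) this
    refine congrArg (fun w => _ * (_ * f w j)) (funext fun t => ?_)
    simp [Pi.single_apply, eq_comm]
  ext i t
  have e1 : ψ (v i * Polynomial.X ^ k) = 0 := by
    rw [map_mul, map_pow, show ψ Polynomial.X = X by simp [ψ]]
    exact congrFun e i
  have := hc (v i * Polynomial.X ^ k) (t + k)
  rw [e1, Polynomial.coeff_mul_X_pow] at this
  simpa using this.symm

end Pool.Agent.Results.MP_5f6a82_al.NoDescent
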